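import Mathlib

/-! Convex polyhedra, pyramids, domes, g-domes and admissible cuts in `ℝ³`. -/

namespace Pool.Agent.MP_3a21c3_co

/-- A convex polyhedron: the convex hull of finitely many points, with nonempty interior. -/
def IsPolyhedron (P : Set (Fin 3 → ℝ)) : Prop :=
  (∃ s : Finset (Fin 3 → ℝ), P = convexHull ℝ (s : Set (Fin 3 → ℝ))) ∧ (interior P).Nonempty

/-- `F` is a `k`-dimensional face of `P`: a nonempty exposed subset of affine dimension `k`
(`k = 2`: face of a polyhedron, `k = 1`: edge, `k = 0`: vertex). -/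
def IsFace (k : ℕ) (P F : Set (Fin 3 → ℝ)) : Prop :=
  IsExposed ℝ P F ∧ F.Nonempty ∧ Module.finrank ℝ (vectorSpan ℝ F) = k

/-- A convex polygon: the convex hull of finitely many points, of affine dimension two. -/
def IsPolygon (B : Set (Fin 3 → ℝ)) : Prop :=
  (∃ s : Finset (Fin 3 → ℝ), B = convexHull ℝ (s : Set (Fin 3 → ℝ))) ∧
    Module.finrank ℝ (vectorSpan ℝ B) = 2

/-- A pyramid: the convex hull of a convex polygon and a point outside its plane. -/
def IsPyramid (Q : Set (Fin 3 → ℝ)) : Prop :=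
  ∃ (B : Set (Fin 3 → ℝ)) (a : Fin 3 → ℝ),
    IsPolygon B ∧ a ∉ affineSpan ℝ B ∧ Q = convexHull ℝ (insert a B)

/-- A g-dome with base `X`: every other face has an edge or a vertex in common with `X`. -/
def IsGDome (G X : Set (Fin 3 → ℝ)) : Prop :=
  IsPolyhedron G ∧ IsFace 2 G X ∧ ∀ F, IsFace 2 G F → F ≠ X →
    ∃ C, (IsFace 1 F C ∧ IsFace 1 X C) ∨ (IsFace 0 F C ∧ IsFace 0 X C)

/-- A dome with base `X`: every other face has an edge in common with `X`. -/
def IsDome (G X : Set (Fin 3 → ℝ)) : Prop :=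
  IsPolyhedron G ∧ IsFace 2 G X ∧ ∀ F, IsFace 2 G F → F ≠ X → ∃ C, IsFace 1 F C ∧ IsFace 1 X C

/-- One cut, with the removed piece `Q` named: the plane `l = c` contains an edge of `X` and misses
the interior of `D`, `D` lies on the side `l ≤ c`, `Q` is the closed part of `P` on the other side,
and `P'` is the closure of `P \ Q`. -/
def CutOff (X D P Q P' : Set (Fin 3 → ℝ)) : Prop :=
  ∃ (l : (Fin 3 → ℝ) →L[ℝ] ℝ) (c : ℝ), l ≠ 0 ∧ (∃ e, IsFace 1 X e ∧ ∀ x ∈ e, l x = c) ∧
    (∀ x ∈ interior D, l x ≠ c) ∧ (∀ x ∈ D, l x ≤ c) ∧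
    Q = P ∩ {x | c ≤ l x} ∧ P' = closure (P \ Q)

/-- One step of an admissible cutting sequence: a cut whose removed piece is a pyramid. -/
def PyramidCut (X D P P' : Set (Fin 3 → ℝ)) : Prop :=
  ∃ Q, IsPyramid Q ∧ CutOff X D P Q P'

end Pool.Agent.MP_3a21c3_co
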